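import Pool.Agent.X90.DK.StepH

/-!
# Relations in a domain with a period map
-/

set_option autoImplicit false

namespace Pool.Agent.X90.DK

open Finset Pool.Agent.Y760.ZF
open Pool.Agent.Y760.ZG (mz)
open Pool.Agent.X90.DB
open Pool.Agent.X90.DC

variable (G : Mot)

/-- **elimination of all the constants**: at most `3 ^ M - 1` relations in general position -/
theorem no_manyH (M : ℕ) : ∀ (R r : ℕ) (κ C : ℝ) (q : ℕ), 0 ≤ κ → 1 ≤ C → ∃ n0 : ℕ, ∀ n : ℕ, n0 ≤ n →
    ∀ v : Fin (M + 1) → G.H, LinearIndependent ℚ v → ∀ (I : Type) [Fintype I] [DecidableEq I]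
    (L : I → Set ℕ), 3 ^ M ≤ Fintype.card I → GP (Tn M q) L → (∀ i, (0 : ℕ) ∉ L i) →
    ¬ ∀ i, BdH G n (M + 1) R r κ C q v (L i) := by
  classical
  induction M with
  | zero =>
    intro R r κ C q _ _
    obtain ⟨n0, h⟩ := pure_zeroH G R r κ C
    refine ⟨n0, fun n hn v hv I _ _ L hI _ _ hall => ?_⟩
    rw [pow_zero] at hI
    obtain ⟨i⟩ : Nonempty I := Fintype.card_pos_iff.1 (by omega)
    obtain ⟨W, a, hR, hW, haC, ⟨w, hw, μ, hne⟩, hrel⟩ := hall i
    have hμ : μ = 0 := Subsingleton.elim (α := Fin 1) μ 0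
    subst hμ
    refine hne (h n hn W hR (fun w hw => ⟨(hW w hw).1, (hW w hw).2.1⟩) (fun w => a w 0)
      (fun w hw => haC w hw 0) ?_ w hw)
    have h1 : v 0 * ∑ w ∈ W, (a w 0 : G.H) * G.Z w = 0 := by
      rw [← hrel, mul_sum]
      refine sum_congr rfl fun w _ => ?_
      have h2 : (∑ μ : Fin (0 + 1), (a w μ : G.H) * v μ) = (a w 0 : G.H) * v 0 :=
        Fin.sum_univ_one (fun μ : Fin 1 => (a w μ : G.H) * v μ)
      rw [h2]
      ring
    exact (mul_eq_zero.1 h1).resolve_left (hv.ne_zero 0)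
  | succ M ih =>
    intro R r κ C q hκ hC
    obtain ⟨n1, h1⟩ := ih R r κ C q hκ hC
    obtain ⟨n2, h2⟩ := pair_stepH G M R r κ C q hκ hC
    have hC' : (1 : ℝ) ≤ ((R * (R * (2 * 3 ^ (r + r))) + 1) * C ^ 2) := by
      refine one_le_mul_of_one_le_of_one_le ?_ (one_le_pow₀ hC)
      exact le_add_of_nonneg_left (by positivity)
    obtain ⟨n3, h3⟩ := ih (R * (R * 3 ^ (r + r))) (r + r) (κ + κ)
      ((R * (R * (2 * 3 ^ (r + r))) + 1) * C ^ 2) (2 * q) (by linarith) hC'
    refine ⟨n1 + n2 + n3, fun n hn v hv I _ _ L hI hGP h0 hall => ?_⟩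
    have hT : Tn (M + 1) q = Tn M q + Tn M (2 * q) + 3 ^ M * q + q := rfl
    have hv' : LinearIndependent ℚ (fun j : Fin (M + 1) => v j.castSucc) :=
      hv.comp _ (Fin.castSucc_injective _)
    set A : Finset I := univ.filter fun i =>
      BdH G n (M + 1) R r κ C q (fun j : Fin (M + 1) => v j.castSucc) (L i) with hA
    have hmA : ∀ i, i ∈ A ↔ BdH G n (M + 1) R r κ C q (fun j : Fin (M + 1) => v j.castSucc) (L i) := by
      intro i
      rw [hA, mem_filter]
      exact ⟨fun h => h.2, fun h => ⟨mem_univ _, h⟩⟩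
    clear_value A
    rcases le_or_gt (3 ^ M) A.card with hc | hc
    · refine h1 n (by omega) _ hv' A (fun i => L i.1) (by rwa [Fintype.card_coe])
        ((hGP.mono (by omega)).comp (fun i : A => i.1) Subtype.val_injective) (fun i => h0 _)
        fun i => ?_
      exact (hmA _).1 i.2
    · have hcard : Fintype.card (Fin (3 ^ M) × Bool) ≤ Fintype.card (Aᶜ : Finset I) := by
        rw [Fintype.card_prod, Fintype.card_fin, Fintype.card_bool, Fintype.card_coe, card_compl]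
        rw [pow_succ] at hI
        omega
      obtain ⟨φ⟩ := Function.Embedding.nonempty_of_card_le hcard
      have hφ : Function.Injective (fun p => ((φ p : (Aᶜ : Finset I)) : I)) :=
        Subtype.val_injective.comp φ.injective
      have hnb : ∀ p, ¬ BdH G n (M + 1) R r κ C q (fun j : Fin (M + 1) => v j.castSucc)
          (L (φ p : (Aᶜ : Finset I)).1) := by
        intro p hb
        have := (φ p).2
        rw [mem_compl] at this
        exact this ((hmA _).2 hb)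
      have hGP1 := hGP.comp (fun p => ((φ p : (Aᶜ : Finset I)) : I)) hφ
      have hGP2 := hGP1.pair (T' := Tn M (2 * q)) (q := q) (by rw [Fintype.card_fin]; omega)
      refine h3 n (by omega) _ hv' (Fin (3 ^ M)) _ (by rw [Fintype.card_fin]) hGP2
        (fun j => mrg_zero) fun j => ?_
      refine h2 n (by omega) v hv _ _ (h0 _) (h0 _) ?_ (hall _) (hall _) (hnb _) (hnb _)
      exact hGP1.sep (q := q) (by omega) (fun p => h0 _) (i := (j, false)) (j := (j, true)) (by
        intro h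
        exact Bool.noConfusion (congrArg Prod.snd h))

/-- finitely many elements, one of them nonzero, as integral combinations of independent ones among them -/
lemma indepH {A : Type} [CommRing A] [Algebra ℚ A] {Q : Type} [Fintype Q] (u : Q → A) (hu : ∃ q, u q ≠ 0) :
    ∃ (M : ℕ) (_ : M + 1 ≤ Fintype.card Q) (g : Fin (M + 1) → Q)
      (_ : LinearIndependent ℚ fun μ => u (g μ))
      (Δ : ℕ) (_ : Δ ≠ 0) (ρ : Q → Fin (M + 1) → ℤ),
      ∀ q, (Δ : A) * u q = ∑ μ, (ρ q μ : A) * u (g μ) := by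
  classical
  obtain ⟨κ, a, hinj, hspan, hind⟩ := exists_linearIndependent' ℚ u
  have : Finite κ := Finite.of_injective a hinj
  have : Fintype κ := Fintype.ofFinite κ
  have hne : Nonempty κ := by
    by_contra h
    rw [not_nonempty_iff] at h
    obtain ⟨q, hq⟩ := hu
    have h1 : u q ∈ Submodule.span ℚ (Set.range u) := Submodule.subset_span ⟨q, rfl⟩
    rw [← hspan, Set.range_eq_empty, Submodule.span_empty, Submodule.mem_bot] at h1
    exact hq h1
  obtain ⟨M, hM⟩ : ∃ M, Fintype.card κ = M + 1 := ⟨Fintype.card κ - 1, by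
    have := Fintype.card_pos_iff.2 hne
    omega⟩
  let e : Fin (M + 1) ≃ κ := (Fintype.equivFinOfCardEq hM).symm
  have hmem : ∀ q, ∃ c : κ → ℚ, ∑ i, c i • u (a i) = u q := by
    intro q
    have h1 : u q ∈ Submodule.span ℚ (Set.range (u ∘ a)) := by
      rw [hspan]
      exact Submodule.subset_span ⟨q, rfl⟩
    exact (Submodule.mem_span_range_iff_exists_fun ℚ).1 h1
  choose c hc using hmem
  obtain ⟨Δ, hΔ, z, hz⟩ := DA.common_den (fun p : Q × Fin (M + 1) => c p.1 (e p.2))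
  refine ⟨M, ?_, fun μ => a (e μ), ?_, Δ, hΔ, fun q μ => z (q, μ), fun q => ?_⟩
  · rw [← hM]
    exact Fintype.card_le_of_injective a hinj
  · exact hind.comp e e.injective
  · rw [← hc q, mul_sum, ← e.sum_comp]
    refine sum_congr rfl fun μ _ => ?_
    have h1 := congrArg (algebraMap ℚ A) (hz (q, μ))
    rw [map_mul, map_natCast, map_intCast] at h1
    rw [← h1, Algebra.smul_def]
    ring

/-- **few tuples with relations** -/
theorem count_bdH (k κ M0 R ℓ q : ℕ) (κ' : ℝ) (hκ' : 0 ≤ κ') : ∃ K : ℕ, ∀ M ≤ M0,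
    ∀ v : Fin (M + 1) → G.H, LinearIndependent ℚ v → ∀ C' : ℝ, 1 ≤ C' → ∃ N0 : ℕ, ∀ N : ℕ, N0 ≤ N →
    ∀ B : Finset (Fin k → ℕ), (∀ s ∈ B, (∀ j, N ≤ s j ∧ s j ≤ κ * N) ∧
      BdH G N (M + 1) R ℓ κ' C' q v (Lt q s)) → B.card ≤ K * N ^ (k - 1) := by
  classical
  set m : ℕ := 3 ^ M0 with hm
  set T : ℕ := ∑ M ∈ range (M0 + 1), Tn M q with hT
  set Q : ℕ := T + m * q + q with hQ
  refine ⟨(2 * Q + 1) ^ (1 + m * k) * κ ^ (k - 1), fun M hM v hv C' hC' => ?_⟩
  obtain ⟨n0, hno⟩ := no_manyH G M R ℓ κ' C' q hκ' hC'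
  have hTM : Tn M q ≤ T := by
    rw [hT]
    exact single_le_sum (f := fun M => Tn M q) (fun _ _ => Nat.zero_le _)
      (mem_range.2 (Nat.lt_succ_of_le hM))
  refine ⟨n0 + 1, fun N hN B hB => ?_⟩
  have hBsub : B ⊆ Fintype.piFinset fun _ : Fin k => Finset.Icc N (κ * N) := by
    intro s hs
    rw [Fintype.mem_piFinset]
    exact fun j => mem_Icc.2 ((hB s hs).1 j)
  have h1 := card_noGT Q N (κ * N) B hBsub m (fun s hs hGT => by
    have hs1 : ∀ i j, N ≤ s i j := fun i j => ((hB _ (hs i)).1 j).1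
    refine hno N (by omega) v hv (Fin m) (fun i => Lt q (s i)) ?_ ?_ (fun i => ?_) fun i => ?_
    · rw [Fintype.card_fin, hm]
      exact Nat.pow_le_pow_right (by norm_num) hM
    · refine GP.mono (gp hGT (T := T) ?_ ?_) hTM
      · rw [Fintype.card_fin, hQ]
        omega
      · rw [hQ]
        omega
    · exact Lt_zero fun j => le_trans (by omega) (hs1 i j)
    · exact (hB _ (hs i)).2)
  refine h1.trans ?_
  rw [mul_assoc, ← mul_pow]
  refine Nat.mul_le_mul_left _ (Nat.pow_le_pow_left ?_ _)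
  omega

/-- **linear relations**: for almost all tuples a relation splits according to the words that start with large
letters -/
theorem linH (k r : ℕ) (w : Fin r → List (Lr k)) (hw : ∀ i, Ge (w i)) (κ : ℕ) :
    ∃ (m : ℕ) (idx : Fin m → Fin r) (cc : Fin m → ℤ) (p : Fin m → List ℕ)
      (v : Fin m → List (Lr k)),
      (∀ j, (p j = [] ∨ Ad (p j)) ∧ p j <+: fpx (w (idx j)) ∧ Gd (v j) ∧
        ∀ s : Fin k → ℕ, (p j).sum + (ix s (v j)).sum = (ix s (w (idx j))).sum) ∧
      (∀ (A : Type) [CommRing A] (Z : List ℕ → A),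
        (∀ u v, Ad u → Ad v → Z u * Z v = ((sti u v).map Z).sum) →
        ∀ s : Fin k → ℕ, (∀ j, 2 ≤ s j) → ∀ c : Fin r → ℤ,
          ∑ i, (c i : A) * ex Z (ix s (w i)) =
            ∑ j, ((c (idx j) * cc j : ℤ) : A) * (ex Z (p j) * ex Z (ix s (v j)))) ∧
      ∀ G : Mot, ∃ K : ℕ, ∀ C : ℝ, ∃ N0 : ℕ, ∀ N : ℕ, N0 ≤ N → ∀ B : Finset (Fin k → ℕ),
        (∀ s ∈ B, (∀ j, N ≤ s j ∧ s j ≤ κ * N) ∧
          ∃ c : Fin r → ℤ, (∀ i, |(c i : ℝ)| ≤ C ^ N) ∧ ∑ i, (c i : G.H) * G.Z (ix s (w i)) = 0 ∧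
            ∃ u : List ℕ, ∑ j with ix s (v j) = u, ((c (idx j) * cc j : ℤ) : G.H) * G.Z (p j) ≠ 0) →
        B.card ≤ K * N ^ (k - 1) := by
  classical
  -- the decompositions
  have h1 : ∀ i, ∃ L : List (ℤ × List ℕ × List (Lr k)),
      (∀ e ∈ L, (e.2.1 = [] ∨ Ad e.2.1) ∧ e.2.1 <+: fpx (w i) ∧ Gd e.2.2 ∧
        ∀ s : Fin k → ℕ, e.2.1.sum + (ix s e.2.2).sum = (ix s (w i)).sum) ∧
      ∀ (A : Type) [CommRing A] (Z : List ℕ → A),
        (∀ u v, Ad u → Ad v → Z u * Z v = ((sti u v).map Z).sum) →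
        ∀ s : Fin k → ℕ, (∀ j, 2 ≤ s j) → ex Z (ix s (w i)) =
          (L.map fun e => (e.1 : A) * (ex Z e.2.1 * ex Z (ix s e.2.2))).sum := by
    intro i
    obtain ⟨v, h2, h3⟩ := exists_prefix2 (w i) (hw i).2
    have hge : Ge (fp (fpx (w i)) ++ v) := by
      rw [← h3]
      exact hw i
    have h4 : ∀ s : Fin k → ℕ, ix s (w i) = fpx (w i) ++ ix s v := by
      intro s
      conv_lhs => rw [h3]
      rw [ix_append, ix_fp]
    obtain ⟨L, hL1, hL2⟩ := dec3 (fpx (w i)).length (fpx (w i)) le_rfl (ge_prefix hge) v h2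
    refine ⟨L, fun e he => ?_, fun A _ Z hZ s hs => ?_⟩
    · obtain ⟨g1, g2, g3, g4⟩ := hL1 e he
      refine ⟨g1, g2, g3, fun s => ?_⟩
      rw [g4 s, h4 s, List.sum_append]
    · rw [h4 s]
      exact hL2 A Z hZ s hs
  choose L hL1 hL2 using h1
  set J : Type := Σ i : Fin r, Fin (L i).length with hJ
  set m : ℕ := Fintype.card J with hm
  let e : J ≃ Fin m := Fintype.equivFin J
  let val : Fin m → ℤ × List ℕ × List (Lr k) := fun j => (L (e.symm j).1).get (e.symm j).2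
  have hval : ∀ j, ((val j).2.1 = [] ∨ Ad (val j).2.1) ∧ (val j).2.1 <+: fpx (w (e.symm j).1) ∧
      Gd (val j).2.2 ∧ ∀ s : Fin k → ℕ,
        (val j).2.1.sum + (ix s (val j).2.2).sum = (ix s (w (e.symm j).1)).sum :=
    fun j => hL1 _ _ (List.get_mem _ _)
  have hexp : ∀ (A : Type) [CommRing A] (Z : List ℕ → A),
        (∀ u v, Ad u → Ad v → Z u * Z v = ((sti u v).map Z).sum) →
        ∀ s : Fin k → ℕ, (∀ j, 2 ≤ s j) → ∀ c : Fin r → ℤ,
          ∑ i, (c i : A) * ex Z (ix s (w i)) =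
            ∑ j, ((c (e.symm j).1 * (val j).1 : ℤ) : A) *
              (ex Z (val j).2.1 * ex Z (ix s (val j).2.2)) := by
    intro A _ Z hZ s hs c
    rw [← e.sum_comp, Fintype.sum_sigma]
    refine sum_congr rfl fun i _ => ?_
    rw [hL2 i A Z hZ s hs, sum_list, mul_sum]
    refine sum_congr rfl fun j _ => ?_
    have q1 : val (e ⟨i, j⟩) = (L i).get j := by
      show (L (e.symm (e ⟨i, j⟩)).1).get (e.symm (e ⟨i, j⟩)).2 = _
      rw [e.symm_apply_apply]
    have q2 : (e.symm (e ⟨i, j⟩)).1 = i := by rw [e.symm_apply_apply]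
    rw [q1, q2]
    push_cast
    ring
  refine ⟨m, fun j => (e.symm j).1, fun j => (val j).1, fun j => (val j).2.1,
    fun j => (val j).2.2, hval, hexp, fun G => ?_⟩
  have hch : CharZero G.H := algebraRat.charZero G.H
  have hexZ : ∀ u, ex G.Z u = G.Z u := by
    intro u
    by_cases h : u = []
    · rw [h, ex_nil, G.nil]
    · rw [ex_ne _ h]
  -- the constants
  obtain ⟨K0, hK0⟩ : ∃ K0 : ℕ, ∀ i, ∀ u ∈ (val i).2.2, u.1 ≤ K0 ∧ ∀ j, u.2 j ≤ K0 := by
    refine ⟨∑ i, ((val i).2.2.map fun u => u.1 + ∑ j, u.2 j).sum, fun i u hu => ?_⟩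
    have h1 : ((val i).2.2.map fun u => u.1 + ∑ j, u.2 j).sum ≤
        ∑ i, ((val i).2.2.map fun u => u.1 + ∑ j, u.2 j).sum :=
      single_le_sum (f := fun i => ((val i).2.2.map fun u => u.1 + ∑ j, u.2 j).sum)
        (fun _ _ => Nat.zero_le _) (mem_univ i)
    have h2 : u.1 + ∑ j, u.2 j ≤ ((val i).2.2.map fun u => u.1 + ∑ j, u.2 j).sum :=
      List.single_le_sum (fun _ _ => Nat.zero_le _) _ (List.mem_map_of_mem hu)
    refine ⟨by omega, fun j => ?_⟩
    have h3 : u.2 j ≤ ∑ j, u.2 j :=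
      single_le_sum (f := fun j => u.2 j) (fun _ _ => Nat.zero_le _) (mem_univ j)
    omega
  obtain ⟨ℓ, hℓ⟩ : ∃ ℓ : ℕ, ∀ i, (val i).2.2.length ≤ ℓ :=
    ⟨∑ i, (val i).2.2.length, fun i => single_le_sum (f := fun i => (val i).2.2.length)
      (fun _ _ => Nat.zero_le _) (mem_univ i)⟩
  obtain ⟨M, hM, g, hv, Δ, hΔ, ρ, hρ⟩ := indepH
    (fun q : Option (Fin m) => G.Z (q.elim [] fun j => (val j).2.1))
    ⟨none, by rw [Option.elim_none, G.nil]; exact one_ne_zero⟩
  obtain ⟨K, hK⟩ := count_bdH G k κ M m ℓ K0 ((K0 * (1 + k * κ) : ℕ) : ℝ) (Nat.cast_nonneg _)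
  refine ⟨K, fun C => ?_⟩
  set S : ℝ := ∑ j : Fin m, ∑ μ, |((val j).1 : ℝ)| * |(ρ (some j) μ : ℝ)| with hS
  have hS0 : 0 ≤ S := by positivity
  have hC0 : 0 ≤ |C| := abs_nonneg C
  obtain ⟨N0, hN0⟩ := hK M le_rfl _ hv ((1 + |C|) * (1 + S)) (by nlinarith)
  refine ⟨N0 + 2, fun N hN B hB => hN0 N (by omega) B fun s hs => ?_⟩
  obtain ⟨hs1, c, hcC, hc0, u, hu⟩ := hB s hs
  have hs2 : ∀ j, 2 ≤ s j := fun j => le_trans (by omega) (hs1 j).1
  refine ⟨hs1, ?_⟩
  -- the relation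
  set a : List ℕ → Fin (M + 1) → ℤ := fun x μ => ∑ j with ix s (val j).2.2 = x,
    c (e.symm j).1 * (val j).1 * ρ (some j) μ with ha
  have hav : ∀ x, ∑ μ, (a x μ : G.H) * G.Z ((g μ).elim [] fun j => (val j).2.1) =
      ∑ j with ix s (val j).2.2 = x, ((c (e.symm j).1 * (val j).1 : ℤ) : G.H) *
        ((Δ : G.H) * G.Z (val j).2.1) := by
    intro x
    simp only [ha]
    push_cast
    simp only [sum_mul]
    rw [sum_comm]
    refine sum_congr rfl fun j _ => ?_
    have h2 := hρ (some j)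
    simp only [Option.elim_some] at h2
    rw [h2, mul_sum]
    exact sum_congr rfl fun μ _ => by ring
  refine ⟨univ.image fun j => ix s (val j).2.2, a, ?_, fun x hx => ?_, fun x hx μ => ?_, ?_, ?_⟩
  · exact card_image_le.trans (by rw [card_univ, Fintype.card_fin])
  · rw [mem_image] at hx
    obtain ⟨j, -, rfl⟩ := hx
    have h2 := ix_Cl hs1 (by omega) (hval j).2.2.1 (hK0 j) (hℓ j)
    exact ⟨h2.1, ⟨h2.2.1, h2.2.2⟩, ix_Hd s (hval j).2.2.1 (hK0 j)⟩
  · simp only [ha]
    push_cast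
    have hCN : ∀ i, |(c i : ℝ)| ≤ |C| ^ N := fun i =>
      (hcC i).trans ((le_abs_self _).trans (abs_pow _ _).le)
    calc |∑ j with ix s (val j).2.2 = x, (c (e.symm j).1 : ℝ) * (val j).1 * ρ (some j) μ| ≤
        ∑ j with ix s (val j).2.2 = x, |C| ^ N * (|((val j).1 : ℝ)| * |(ρ (some j) μ : ℝ)|) := by
          refine (abs_sum_le_sum_abs _ _).trans (sum_le_sum fun j _ => ?_)
          rw [abs_mul, abs_mul, mul_assoc]
          exact mul_le_mul_of_nonneg_right (hCN _) (by positivity)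
      _ ≤ ∑ j, |C| ^ N * (|((val j).1 : ℝ)| * |(ρ (some j) μ : ℝ)|) :=
          sum_le_sum_of_subset_of_nonneg (filter_subset _ _) fun _ _ _ => by positivity
      _ ≤ |C| ^ N * S := by
          rw [← mul_sum]
          refine mul_le_mul_of_nonneg_left (sum_le_sum fun j _ => ?_) (by positivity)
          exact single_le_sum (f := fun μ => |((val j).1 : ℝ)| * |(ρ (some j) μ : ℝ)|)
            (fun _ _ => by positivity) (mem_univ μ)
      _ ≤ ((1 + |C|) * (1 + S)) ^ N := by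
          rw [mul_pow]
          refine mul_le_mul (pow_le_pow_left₀ hC0 (by linarith) _) ?_ hS0 (by positivity)
          exact (by linarith : S ≤ 1 + S).trans (le_self_pow₀ (by linarith) (by omega))
  · by_contra hcon
    push Not at hcon
    apply hu
    by_cases hmem : u ∈ univ.image fun j => ix s (val j).2.2
    · have h2 := hav u
      rw [sum_eq_zero fun μ _ => by rw [hcon u hmem μ, Int.cast_zero, zero_mul]] at h2
      have h3 : (Δ : G.H) * ∑ j with ix s (val j).2.2 = u,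
          ((c (e.symm j).1 * (val j).1 : ℤ) : G.H) * G.Z (val j).2.1 = 0 := by
        rw [h2, mul_sum]
        exact sum_congr rfl fun j _ => by ring
      rcases mul_eq_zero.1 h3 with h4 | h4
      · exact absurd (Nat.cast_eq_zero.1 h4) hΔ
      · exact h4
    · refine sum_eq_zero fun j hj => ?_
      rw [mem_filter] at hj
      exact absurd (mem_image.2 ⟨j, mem_univ _, hj.2⟩) hmem
  · have h2 := hexp G.H G.Z G.mul s hs2 c
    simp only [hexZ] at h2
    rw [hc0] at h2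
    calc ∑ x ∈ univ.image fun j => ix s (val j).2.2,
          (∑ μ, (a x μ : G.H) * G.Z ((g μ).elim [] fun j => (val j).2.1)) *
            G.Z x =
        ∑ x ∈ univ.image fun j => ix s (val j).2.2, ∑ j with ix s (val j).2.2 = x,
          (Δ : G.H) * (((c (e.symm j).1 * (val j).1 : ℤ) : G.H) *
            (G.Z (val j).2.1 * G.Z (ix s (val j).2.2))) := by
          refine sum_congr rfl fun x _ => ?_
          rw [hav x, sum_mul]
          refine sum_congr rfl fun j hj => ?_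
          rw [mem_filter] at hj
          rw [hj.2]
          ring
      _ = ∑ j, (Δ : G.H) * (((c (e.symm j).1 * (val j).1 : ℤ) : G.H) *
            (G.Z (val j).2.1 * G.Z (ix s (val j).2.2))) :=
          sum_fiberwise_of_maps_to (fun j _ => mem_image_of_mem _ (mem_univ j)) _
      _ = 0 := by
          rw [← mul_sum, ← h2, mul_zero]

end Pool.Agent.X90.DK
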