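import Pool.Agent.X90.DK.LinH
import Pool.Agent.X90.DH.Main5

/-!
# Counting the relations in a domain with a period map, mixed weights
-/

set_option autoImplicit false

namespace Pool.Agent.X90.DK

open Finset
open Pool.Agent.Y760.ZG (mz)
open Pool.Agent.Y760.ZF (sti)
open Pool.Agent.X90.DB (Ad ix ex ex_nil ex_ne)
open Pool.Agent.X90.DC
open Pool.Agent.X90.DD
open Pool.Agent.X90.DE
open Pool.Agent.X90.DH

/-- **the relations between the values with one large argument** -/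
theorem core5M (G : Mot) (W κ : ℕ) : ∃ (m : ℕ) (ii jj : Fin m → ↥(IM W)) (cc : Fin m → ℤ),
    (∀ (A : Type) [CommRing A] (Z : List ℕ → A),
      (∀ u v, Ad u → Ad v → Z u * Z v = ((sti u v).map Z).sum) →
      ∀ s : ℕ, 2 ≤ s → ∀ c : ↥(IM W) → ℤ, ∑ i, (c i : A) * ex Z (wd5 s i.1) =
        ∑ j, ((c (ii j) * cc j : ℤ) : A) *
          (ex Z (jj j).1.1 * ex Z (gw5 s (jj j).1.2))) ∧
    ∃ K : ℕ, ∀ C : ℝ, ∃ N0 : ℕ, ∀ N : ℕ, N0 ≤ N → ∀ B : Finset ℕ,
      (∀ s ∈ B, (N ≤ s ∧ s ≤ κ * N) ∧ ∃ c : ↥(IM W) → ℤ, (∀ i, |(c i : ℝ)| ≤ C ^ N) ∧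
        ∑ i, (c i : G.H) * G.Z (wd5 s i.1) = 0 ∧
        ∃ x : ℕ × List ℕ, ∑ j with (jj j).1.2 = x,
          ((c (ii j) * cc j : ℤ) : G.H) * G.Z (jj j).1.1 ≠ 0) → B.card ≤ K := by
  classical
  set e := (IM W).equivFin with he
  have hI : ∀ i : ↥(IM W), (i.1.1 = [] ∨ Ad i.1.1) ∧ (∀ t ∈ i.1.2.2, 1 ≤ t) ∧
      i.1.1.sum + (i.1.2.1 + i.1.2.2.sum) ≤ W := fun i => mem_IM.1 i.2
  obtain ⟨m, idx, cc, p, v, hpv, hexp, hG⟩ := linH 1 (IM W).card
    (fun a => pt5 (e.symm a).1) (fun a => ge_pt5 (hI _).1 (hI _).2.1) κ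
  obtain ⟨K, hK⟩ := hG G
  have h1 : ∀ j, ∃ x : ℕ × List ℕ, v j = (x.1, fun _ => 1) :: fp x.2 ∧
      (∀ t ∈ x.2, 1 ≤ t) ∧ (p j).sum + (x.1 + x.2.sum) ≤ W := fun j => by
    set T := (e.symm (idx j)).1.1.sum + ((e.symm (idx j)).1.2.1 + (e.symm (idx j)).1.2.2.sum)
      with hT
    have hTW : T ≤ W := (hI (e.symm (idx j))).2.2
    obtain ⟨r, h2, h3, h4⟩ := struct T (p j).sum (v j) (hpv j).2.2.1 fun s => by
      rw [(hpv j).2.2.2 s, ix_pt5, wd5_sum]
    exact ⟨(T - (p j).sum - r.sum, r), h2, h3, by simp only; omega⟩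
  choose x hx1 hx2 hx3 using h1
  have hixv : ∀ (s : Fin 1 → ℕ) j, ix s (v j) = gw5 (s 0) (x j) := by
    intro s j
    rw [hx1 j, ix_letter]
    rfl
  refine ⟨m, fun j => e.symm (idx j), fun j => ⟨(p j, x j), mem_IM.2 ⟨(hpv j).1, hx2 j, hx3 j⟩⟩,
    cc, ?_, K, ?_⟩
  · intro A _ Z hZ s hs c
    have h2 := hexp A Z hZ (fun _ => s) (fun _ => hs) fun a => c (e.symm a)
    simp only [ix_pt5, hixv] at h2
    rw [← e.symm.sum_comp]
    exact h2
  · intro C
    obtain ⟨N0, hN0⟩ := hK C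
    refine ⟨N0 + 2, fun N hN B hB => ?_⟩
    have h2 := hN0 N (by omega) (B.map ⟨fun (s : ℕ) (_ : Fin 1) => s, fun s s' h => congrFun h 0⟩) (by
      intro s' hs'
      rw [mem_map] at hs'
      obtain ⟨s, hs, rfl⟩ := hs'
      obtain ⟨h3, c, h4, h5, x0, h6⟩ := hB s hs
      refine ⟨fun _ => h3, fun a => c (e.symm a), fun a => h4 _, ?_, gw5 s x0, ?_⟩
      · rw [← h5, ← e.symm.sum_comp]
        exact sum_congr rfl fun a _ => by rw [ix_pt5]; rfl
      · have h7 : (univ.filter fun j => ix (fun _ : Fin 1 => s) (v j) = gw5 s x0) =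
            univ.filter fun j => x j = x0 := by
          ext j
          rw [mem_filter, mem_filter, hixv, gw5, gw5, List.cons.injEq, Prod.ext_iff]
          simp only [mem_univ, true_and]
          constructor
          · rintro ⟨g4, g5⟩
            exact ⟨by omega, g5⟩
          · rintro ⟨g3, g5⟩
            exact ⟨by rw [g3], g5⟩
        show ∑ j with ix (fun _ : Fin 1 => s) (v j) = gw5 s x0, _ ≠ 0
        rw [h7]
        exact h6)
    rwa [card_map, Nat.sub_self, pow_zero, mul_one] at h2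

variable (G : Mot)

/-- the span of the elements of weight at most `m` -/
noncomputable def UM (m : ℕ) : Submodule ℚ G.H :=
  Submodule.span ℚ (G.Z '' {p | (p = [] ∨ Ad p) ∧ p.sum ≤ m})

lemma Z_mem5 {n : ℕ} {p : List ℕ} (hp : p = [] ∨ Ad p) (hn : p.sum ≤ n) : G.Z p ∈ UM G n :=
  Submodule.subset_span ⟨p, ⟨hp, hn⟩, rfl⟩

lemma UM_eq (n : ℕ) : UM G n = Submodule.span ℚ ((fun p => G.Z p) '' (al n : Set (List ℕ))) := by
  classical
  rw [UM]
  congr 2
  ext p
  rw [mem_coe, mem_al]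
  rfl

theorem UM_finite (n : ℕ) : Module.Finite ℚ (UM G n) := by
  classical
  rw [UM_eq]
  exact Module.Finite.span_of_finite ℚ ((al n).finite_toSet.image _)

instance (n : ℕ) : Module.Finite ℚ (UM G n) := UM_finite G n

/-- the values of the coefficients -/
noncomputable def ev5M (W : ℕ) :
    (↥(IM W) → ℚ) →ₗ[ℚ] ((x : ↥(XM W)) → ↥(UM G (W - (x.1.1 + x.1.2.sum)))) where
  toFun g x := ⟨∑ i with i.1.2 = x.1, g i • G.Z i.1.1,
    Submodule.sum_mem _ fun i hi => Submodule.smul_mem _ _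
      (Z_mem5 G (mem_IM.1 i.2).1 (by
        have h1 := (mem_IM.1 i.2).2.2
        rw [(mem_filter.1 hi).2] at h1
        omega))⟩
  map_add' c d := by
    funext x
    ext
    simp only [Pi.add_apply, add_smul, sum_add_distrib, Submodule.coe_add]
  map_smul' a c := by
    funext x
    ext
    simp only [Pi.smul_apply, smul_eq_mul, RingHom.id_apply, smul_sum, mul_smul,
      SetLike.val_smul]

lemma ev5M_surj (W : ℕ) : Function.Surjective (ev5M G W) := by
  classical
  intro z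
  have h1 : ∀ x : ↥(XM W), ∃ l : List ℕ →₀ ℚ, l ∈ Finsupp.supported ℚ ℚ
      {p : List ℕ | (p = [] ∨ Ad p) ∧ p.sum ≤ W - (x.1.1 + x.1.2.sum)} ∧
      Finsupp.linearCombination ℚ G.Z l = z x := by
    intro x
    have h2 : (z x : G.H) ∈ Submodule.span ℚ
      (G.Z '' {p | (p = [] ∨ Ad p) ∧ p.sum ≤ W - (x.1.1 + x.1.2.sum)}) := (z x).2
    rw [Finsupp.mem_span_image_iff_linearCombination] at h2
    exact h2
  choose l hl1 hl2 using h1
  have hX : ∀ i : ↥(IM W), i.1.2 ∈ XM W := fun i =>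
    mem_XM.2 ⟨(mem_IM.1 i.2).2.1, by
      have := (mem_IM.1 i.2).2.2
      omega⟩
  refine ⟨fun i => l ⟨i.1.2, hX i⟩ i.1.1, ?_⟩
  funext x
  ext
  show ∑ i : ↥(IM W) with i.1.2 = x.1,
    l ⟨i.1.2, hX i⟩ i.1.1 • G.Z i.1.1 = z x
  rw [← hl2 x, Finsupp.linearCombination_apply, Finsupp.sum]
  symm
  refine sum_bij_ne_zero (fun p hp _ => ⟨(p, x.1), ?_⟩) ?_ ?_ ?_ ?_
  · have h2 := (Finsupp.mem_supported ℚ _).1 (hl1 x) hp
    have h3 := mem_XM.1 x.2
    obtain ⟨h4, h5⟩ := h2
    exact mem_IM.2 ⟨h4, h3.1, by simp only; omega⟩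
  · intro p hp _
    exact mem_filter.2 ⟨mem_univ _, rfl⟩
  · intro p hp _ p' hp' _ h
    exact congrArg Prod.fst (congrArg Subtype.val h)
  · intro i hi hne
    rw [mem_filter] at hi
    have hx : (⟨i.1.2, hX i⟩ : ↥(XM W)) = x := by
      ext1
      exact hi.2
    rw [hx] at hne
    have hs : i.1.1 ∈ (l x).support := by
      rw [Finsupp.mem_support_iff]
      intro h0
      apply hne
      rw [h0, zero_smul]
    refine ⟨i.1.1, hs, hne, ?_⟩
    ext1
    exact Prod.ext rfl hi.2.symm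
  · intro p hp _
    rfl

/-- **the dimension of the space of relations** -/
theorem rank_rel5M {W : ℕ} (P : (↥(IM W) → ℚ) →ₗ[ℚ] (↥(IM W) → ℚ)) (hP : Function.Injective P) :
    Module.finrank ℚ (LinearMap.ker ((ev5M G W).comp P)) +
      ∑ j ∈ range (W + 1), 2 ^ j * Module.finrank ℚ (UM G (W - j)) =
    ∑ j ∈ range (W + 1), 2 ^ j * nA (W - j) := by
  classical
  have h1 : Function.Surjective ((ev5M G W).comp P) := by
    rw [LinearMap.coe_comp]
    exact (ev5M_surj G W).comp (LinearMap.surjective_of_injective hP)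
  have h2 := LinearMap.finrank_range_add_finrank_ker ((ev5M G W).comp P)
  rw [LinearMap.range_eq_top.2 h1, finrank_top, Module.finrank_pi_fintype,
    Module.finrank_fintype_fun_eq_card, Fintype.card_coe, card_IM] at h2
  rw [← h2, ← sum_XM W fun n => Module.finrank ℚ (UM G n), add_comm]
  congr 1
  rw [← sum_coe_sort (XM W)]

/-- the space spanned by the relations of height at most `H` between the values with one large argument -/
noncomputable def rel5M (W k : ℕ) (H : ℝ) : Submodule ℚ (List ℕ →₀ ℚ) :=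
  Submodule.span ℚ {c | (∀ w ∈ c.support, Fam5 W k w) ∧
    (∀ w, ∃ z : ℤ, c w = z ∧ |(z : ℝ)| ≤ H) ∧ Finsupp.linearCombination ℚ G.Z c = 0}

lemma En5_lc {W s : ℕ} (c : ↥(IM W) → ℚ) :
    Finsupp.linearCombination ℚ G.Z (En5 W s c) = ∑ i, c i • G.Z (wd5 s i.1) := by
  classical
  rw [En5_apply, map_sum]
  exact sum_congr rfl fun i _ => by rw [Finsupp.linearCombination_single]

lemma smul_int (z : ℤ) (x : G.H) : ((z : ℚ) • x) = (z : G.H) * x := by
  rw [Algebra.smul_def]
  simp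

/-- **the dimension of the space of relations, for almost all `s`** -/
theorem main5M (W κ : ℕ) : ∃ K : ℕ, ∀ C : ℝ, 1 < C → ∃ N0 : ℕ, ∀ N : ℕ, N0 ≤ N → ∀ B : Finset ℕ,
    (∀ s ∈ B, (N ≤ s ∧ s ≤ κ * N) ∧ Module.finrank ℚ (rel5M G W s (C ^ s)) +
      ∑ j ∈ range (W + 1), 2 ^ j * Module.finrank ℚ (UM G (W - j)) ≠
        ∑ j ∈ range (W + 1), 2 ^ j * nA (W - j)) → B.card ≤ K := by
  classical
  obtain ⟨m, ii, jj, cc, hexp, K, hK⟩ := core5M G W κ
  refine ⟨K, fun C hC => ?_⟩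
  set P := Ph5 ii jj cc with hP
  have hPinj : Function.Injective P := Ph5_inj ii jj cc hexp
  set R := LinearMap.ker ((ev5M G W).comp P) with hR
  have hrank := rank_rel5M G P hPinj
  obtain ⟨H0, hH0, hspan⟩ := span_int R
  obtain ⟨N1, hN1⟩ : ∃ N1 : ℕ, ∀ k, N1 ≤ k → H0 ≤ C ^ k := by
    have h1 := (tendsto_pow_atTop_atTop_of_one_lt hC).eventually_ge_atTop H0
    rw [Filter.eventually_atTop] at h1
    exact h1
  obtain ⟨N0, hN0⟩ := hK (C ^ κ)
  refine ⟨N0 + N1 + W + 3, fun N hN B hB => ?_⟩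
  refine hN0 N (by omega) _ fun s hs => ?_
  obtain ⟨⟨hk1, hk2⟩, hk3⟩ := hB s hs
  have hsW : W < s := by omega
  refine ⟨⟨by omega, hk2⟩, ?_⟩
  by_contra hcon
  push Not at hcon
  apply hk3
  rw [← hrank, add_left_inj]
  -- the two spaces
  have hval : ∀ (c : ↥(IM W) → ℚ) (x : ℕ × List ℕ),
      ∑ i : ↥(IM W) with i.1.2 = x, P c i • G.Z i.1.1 =
      ∑ j with (jj j).1.2 = x, (c (ii j) * cc j : ℚ) • G.Z (jj j).1.1 := by
    intro c x
    rw [← sum_fiberwise_of_maps_to (s := univ.filter fun j => (jj j).1.2 = x)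
      (t := univ.filter fun i : ↥(IM W) => i.1.2 = x) (g := jj) (fun j hj => by
        rw [mem_filter] at hj ⊢
        exact ⟨mem_univ _, hj.2⟩)]
    refine sum_congr rfl fun i hi => ?_
    rw [mem_filter] at hi
    rw [filter_filter]
    have h1 : (univ.filter fun j => (jj j).1.2 = x ∧ jj j = i) =
        univ.filter fun j => jj j = i := by
      ext j
      rw [mem_filter, mem_filter]
      constructor
      · rintro ⟨g1, -, g2⟩
        exact ⟨g1, g2⟩
      · rintro ⟨g1, g2⟩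
        refine ⟨g1, ?_, g2⟩
        rw [g2]
        exact hi.2
    rw [h1]
    have h2 : P c i = ∑ j with jj j = i, c (ii j) * cc j := rfl
    rw [h2, sum_smul]
    refine sum_congr rfl fun j hj => ?_
    rw [mem_filter] at hj
    rw [hj.2]
  have hmemR : ∀ c : ↥(IM W) → ℚ, c ∈ R ↔ ∀ x : ℕ × List ℕ,
      ∑ j with (jj j).1.2 = x, (c (ii j) * cc j : ℚ) • G.Z (jj j).1.1 = 0 := by
    intro c
    rw [hR, LinearMap.mem_ker]
    constructor
    · intro h x
      by_cases hx : x ∈ XM W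
      · have h1 := congrArg Subtype.val (congrFun h ⟨x, hx⟩)
        have h2 : ∑ i : ↥(IM W) with i.1.2 = x, (P c) i • G.Z i.1.1 = 0 := h1
        rw [← hval]
        exact h2
      · refine sum_eq_zero fun j hj => ?_
        rw [mem_filter] at hj
        exfalso
        apply hx
        have h1 := mem_IM.1 (jj j).2
        rw [← hj.2]
        exact mem_XM.2 ⟨h1.2.1, by omega⟩
    · intro h
      funext x
      ext
      show ∑ i : ↥(IM W) with i.1.2 = x.1, (P c) i • G.Z i.1.1 = 0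
      rw [← h x.1, ← hval]
  have hle1 : rel5M G W s (C ^ s) ≤ R.map (En5 W s) := by
    rw [rel5M, Submodule.span_le]
    rintro c ⟨hc1, hc2, hc3⟩
    rw [SetLike.mem_coe, Submodule.mem_map]
    have hcE : En5 W s (fun i => c (wd5 s i.1)) = c := by
      ext w
      by_cases hw : ∃ i : ↥(IM W), w = wd5 s i.1
      · obtain ⟨i, rfl⟩ := hw
        rw [En5_wd hsW]
      · push Not at hw
        rw [En5_out _ hw]
        by_contra h0
        have h1 := hc1 w (Finsupp.mem_support_iff.2 fun h => h0 h.symm)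
        rw [fam5_iff (by omega)] at h1
        obtain ⟨i, hi⟩ := h1
        exact hw i hi
    refine ⟨fun i => c (wd5 s i.1), ?_, hcE⟩
    choose z hz1 hz2 using hc2
    rw [hmemR]
    by_contra hcon2
    push Not at hcon2
    obtain ⟨x, hnr⟩ := hcon2
    refine hnr ?_
    have h1 := hcon (fun i => z (wd5 s i.1)) (fun i => ?_) ?_ x
    · rw [← h1]
      refine sum_congr rfl fun j _ => ?_
      rw [hz1, ← smul_int]
      push_cast
      rfl
    · refine (hz2 _).trans ?_
      rw [← pow_mul]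
      exact pow_le_pow_right₀ hC.le hk2
    · have h1 := En5_lc G (s := s) fun i : ↥(IM W) => c (wd5 s i.1)
      rw [hcE, hc3] at h1
      rw [h1]
      refine sum_congr rfl fun i _ => ?_
      rw [hz1, smul_int]
  have hle2 : R.map (En5 W s) ≤ rel5M G W s (C ^ s) := by
    refine (Submodule.map_mono hspan).trans ?_
    rw [Submodule.map_span, Submodule.span_le]
    rintro _ ⟨c, ⟨hcR, hcz⟩, rfl⟩
    have hH : H0 ≤ C ^ s := hN1 _ (by omega)
    refine Submodule.subset_span ⟨fun w hw => ?_, fun w => ?_, ?_⟩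
    · by_contra h0
      rw [fam5_iff (by omega)] at h0
      push Not at h0
      rw [Finsupp.mem_support_iff] at hw
      exact hw (En5_out c h0)
    · by_cases hw : ∃ i : ↥(IM W), w = wd5 s i.1
      · obtain ⟨i, rfl⟩ := hw
        obtain ⟨z, hz1, hz2⟩ := hcz i
        exact ⟨z, by rw [En5_wd hsW, hz1], hz2.trans hH⟩
      · push Not at hw
        exact ⟨0, by rw [En5_out c hw, Int.cast_zero], by
          rw [Int.cast_zero, abs_zero]
          exact hH0.trans hH⟩
    · rw [En5_lc]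
      choose z hz1 hz2 using hcz
      have h1 := hexp G.H G.Z G.mul s (by omega) z
      have hexR : ∀ u, ex G.Z u = G.Z u := by
        intro u
        by_cases h : u = []
        · rw [h, ex_nil, G.nil]
        · rw [ex_ne _ h]
      simp only [hexR] at h1
      have h2 : ∑ i : ↥(IM W), c i • G.Z (wd5 s i.1) =
          ∑ i : ↥(IM W), (z i : G.H) * G.Z (wd5 s i.1) :=
        sum_congr rfl fun i _ => by rw [hz1 i, smul_int]
      rw [h2, h1]
      rw [hmemR] at hcR
      rw [← sum_fiberwise_of_maps_to (s := univ)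
        (t := univ.image fun j => (jj j).1.2)
        (g := fun j => (jj j).1.2) (fun j _ => mem_image_of_mem _ (mem_univ j))]
      refine sum_eq_zero fun x _ => ?_
      have h3 : ∑ j with (jj j).1.2 = x, ((z (ii j) * cc j : ℤ) : G.H) *
          (G.Z (jj j).1.1 * G.Z (gw5 s (jj j).1.2)) =
          (∑ j with (jj j).1.2 = x,
            (c (ii j) * cc j : ℚ) • G.Z (jj j).1.1) * G.Z (gw5 s x) := by
        rw [sum_mul]
        refine sum_congr rfl fun j hj => ?_
        rw [mem_filter] at hj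
        have h4 : ((z (ii j) : ℚ) * (cc j : ℚ)) = ((z (ii j) * cc j : ℤ) : ℚ) := by push_cast; rfl
        rw [hj.2, hz1, h4, smul_int]
        ring
      rw [h3, hcR, zero_mul]
  rw [le_antisymm hle1 hle2]
  exact (LinearEquiv.finrank_eq (Submodule.equivMapOfInjective _ (En5_inj hsW) R)).symm

end Pool.Agent.X90.DK
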